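import Mathlib
import Pool.Agent.Q64.N.Main

/-!
# Rational and numerical equivalence and products with abelian varieties: Newton strata

Fix a prime number `p` and a nonempty finite set `κ`. For `i` in `κ` let `g i` be a dimension and
let `sl i j`, `j < g i`, be rational numbers between `0` and `1 / 2` such that the `sl i j` and
`1 - sl i j` are the slopes of a symmetric Newton polygon with integral break points (`IsNewton`)
which is not the supersingular one, that is `sl i j < 1 / 2` for some `j`. Let `r` be an integer
smaller than all the `g i`, and let `E` be a number field. By the theorem of Honda and Tate,
`Stratum g sl p a` is the set of the families of isogeny classes of abelian varieties of dimensions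
`g i` over the field with `q = p ^ a` elements with these Newton polygons; it consists of the
families `f i` of the characteristic polynomials of Frobenius.

As `a → ∞`, the number of the families in `Stratum g sl p a` tends to infinity, and **the
proportion of those families for which the following is true tends to one**: for all `N` and
`ε > 0` there is an `a₀` such that for `a ≥ a₀` there are at least `N` families, and at most `ε`
times their number are exceptions.

Let `A` be an abelian variety over the field with `Q = q ^ s` elements, `s > 0`, which is isogenous
to a product of powers of abelian varieties coming from the field with `q` elements, with
characteristic polynomials `f i`, and let `Z` be **any** smooth projective variety over the field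
with `Q` elements such that

* the eigenvalues `ρ` of Frobenius on the cohomology of `Z` and their conjugates are in a group of
  rank at most `r` over `E` (`RootsRank`): there are nonzero numbers `u 1, ..., u r` such that each
  `ρ` has a power which is the product of a nonzero element of `E` and of integral powers of
  `u 1, ..., u r`;
* homologically trivial self-correspondences of degree zero of `A × Z` are nilpotent, for instance
  the motive of `Z` is finite-dimensional in the sense of Kimura and O'Sullivan. This is known for
  all varieties dominated by products of curves, and for their products with `A`.

The Kunneth formula `⨁ CH^i(A)_ℚ ⊗ CH^(n-i)(Z)_ℚ = CH^n(A × Z)_ℚ` holds, and **the pairing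
`CH^n(A × Z)_ℝ × CH^(d-n)(A × Z)_ℝ → ℝ`, `d = dim A + dim Z`, of the question is perfect if and
only if the pairings `CH^m(Z)_ℝ × CH^(dim Z - m)(Z)_ℝ → ℝ` with `n - dim A ≤ m ≤ n` are perfect.**
Rational and numerical (homological) equivalence coincide for cycles of codimension `c` on `A × Z`
if and only if they coincide for cycles of codimension `c - i` on `Z` for all `0 ≤ i ≤ dim A`. If
`Z` is a point, a curve or a surface, all pairings for `A × Z` are perfect, by the theorems quoted
in the question. The Frobenius endomorphism acts on `CH^i(A × Z)_ℚ` as multiplication by `Q ^ i`.

The framework (`TheoryData`, `IsChow`, `IsWeil`) is the one of helper492: the Chow groups `C` with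
their pull-backs, push-forwards and products, and a Weil cohomology theory `H` with coefficients in
an algebraically closed field `F`, on a class `𝒱` of smooth proper varieties over `k`.

For `r = 0` the assumption on the eigenvalues says that they and their conjugates have powers in
`E`. If for instance a factor of this kind over the field with `q' = p ^ b` elements is given, one
can take for `E` the field generated by the Frobenius eigenvalues and their conjugates, and apply
the theorem to the fields with `q = p ^ a` elements, `b | a`. A supersingular abelian variety may
always be added to the other factor.

Relation to other results. `AlmostAllAbelianPerfect` (this folder) is about almost all abelian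
varieties of given dimensions. Almost all of these are ordinary, and each other Newton polygon
belongs to a proportion of the isogeny classes which tends to zero; so that theorem says nothing
about any Newton polygon which is not ordinary. Here the characteristic and the Newton polygons are
given: for instance one obtains almost all those abelian varieties of a given dimension at least
three, over the fields of characteristic `p`, which have `p`-rank zero and are not supersingular.
`AllCMTypesPerfect` and `SmallSlopeDeviation` (this folder) are about abelian varieties with given
fields. The count of the families in a stratum is that of helper518 (`NewtonStrata`, MP_ee618e_ag,
where it is applied to the Tate conjecture for the products of the abelian varieties in the stratum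
and supersingular ones).

The proof. The elements of the stratum correspond to integral points in a box whose sides tend to
infinity: the coefficients of the trace polynomials, divided by the powers of `p` prescribed by the
Newton polygons (helper518). We apply the sieve only with primes which split completely in the
Galois closure of `E`; there are infinitely many (Chebotarev, formalized by helper401). So for
almost all families the trace polynomials are irreducible, and each pair `α`, `q / α` of roots can
be exchanged by a Galois automorphism which fixes all the other roots of all the `f i` and all
elements of `E`. No root is supersingular, as some slope is smaller than `1 / 2`. A multiplicative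
relation between `ρ`, a power of `q` and roots of the `f i`, other than those which follow from
`α (q / α) = q`, expresses some power of `α ^ 2 / q`, for all roots `α` of one `f i`, by conjugates
of `ρ`; by the automorphisms above these `g i > r` numbers are multiplicatively independent, also
modulo `E`, which is a contradiction. It follows that the generalized eigenvectors of Frobenius in
the cohomology of `A × Z` for the eigenvalues `Q ^ i` are sums of products of classes of products
`D j` of divisors on `A` and of classes on `Z`. Let `p` be the projector given by the `D j` and
dual classes, and `P` a polynomial killing all the other eigenvalues and with `P (Q ^ i) = 1`. The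
correspondence `(1 - p) P (F)` is homologically trivial, hence nilpotent; as it acts on
`T^i(A × Z)` as the idempotent `1 - p`, this idempotent is zero. (The idea to play the eigenvalues
of Frobenius off against nilpotence is due to Soulé, Geisser and Kahn.)
-/

set_option autoImplicit false

namespace Pool.Agent.Results.MP_4960c7_ag.NewtonStrata

open Polynomial Pool.Agent.Q64.P Pool.Agent.Q64.N
open Pool.Agent.Q64.L (RootsRank)

/-- **Rational and numerical equivalence coincide on `A × Z` in codimension `c` if and only if they
coincide on `Z` in the codimensions `c - i`, `0 ≤ i ≤ dim A`, and the intersection pairings are
perfect for `A × Z` if and only if they are for `Z`, for all smooth projective varieties `Z` whose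
Frobenius eigenvalues and their conjugates are of rank at most `r` over `E`, for almost all
families of abelian varieties in each Newton stratum over the fields of characteristic `p`.** -/
theorem result {κ : Type} [Fintype κ] [Nonempty κ] (p : ℕ) [Fact p.Prime]
    -- dimensions and Newton polygons
    (g : κ → ℕ) (sl : ∀ i, Fin (g i) → ℚ) (hsl : ∀ i, IsNewton (sl i))
    (hss : ∀ i, ∃ j, sl i j < 1 / 2)
    -- the rank and the number field
    (r : ℕ) (hr : ∀ i, r < g i) (E : IntermediateField ℚ ℂ) [FiniteDimensional ℚ E]
    -- a number of families, a proportion of exceptions
    (N : ℕ) (ε : ℝ) (hε : 0 < ε) :
    ∃ a₀ : ℕ, ∀ a, a₀ ≤ a →
      (Stratum g sl p a).Finite ∧ N ≤ (Stratum g sl p a).ncard ∧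
      ({f ∈ Stratum g sl p a | ¬ (PerfectReduces (RootsRank E r) (p ^ a) f ∧
        RatNumReduces (RootsRank E r) (p ^ a) f)}.ncard : ℝ) ≤
        ε * ((Stratum g sl p a).ncard : ℝ) :=
  strata p g sl hsl hss r hr E (fun a f => PerfectReduces (RootsRank E r) (p ^ a) f ∧
      RatNumReduces (RootsRank E r) (p ^ a) f)
    (fun _ _ _ hq hG => ⟨perfectReduces' hq hG, ratNumReduces' hq hG⟩) N ε hε

end Pool.Agent.Results.MP_4960c7_ag.NewtonStrata
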