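import Mathlib
import Pool.Agent.Q64.P.Good

/-!
# Rational and numerical equivalence and products with abelian varieties: small slope deviations

Let `q = p ^ a`, let `F i` (`i` in a finite set) be CM fields and `π i` a Weil number for `q` in
`F i`, and let `f i` be monic polynomials whose complex roots are conjugates of `π i` (`IsPolyOf`),
for instance the characteristic polynomials of Frobenius of the abelian varieties in the isogeny
class of `π i` over the field with `q` elements. We suppose that

* the functions `n` on the complex embeddings of `F i` with `n (conj φ) = - n φ` are an absolutely
  irreducible representation of the automorphisms of `ℂ` (`OddAbsolutelyIrreducible`), and there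
  are no equivariant maps between those of `F i` and `F i'` for `i ≠ i'` (`Unrelated`). This is the
  generic case; the first condition is true, for example, if the Galois group of the normal closure
  of `F i` consists of all permutations of the embeddings compatible with the complex conjugation,
  or if only some automorphism exchanges one embedding with its complex conjugate and fixes all the
  others;
* no `π i` is supersingular (`HasOtherSlope`).

Let `A` be an abelian variety over the field with `Q = q ^ s` elements which is isogenous to a
product of powers of abelian varieties coming from the field with `q` elements, with characteristic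
polynomials `f i`, and let `Z` be **any** smooth projective variety over the field with `Q`
elements such that

* the eigenvalues `ρ` of Frobenius on the cohomology of `Z` and their conjugates are good
  (`GoodRoots`): for each `i`, `ρ` is unrelated to `F i` (`UnrelatedTo`: a function `n` on the
  embeddings of `F i` with `n (conj φ) = - n φ` which is invariant under all automorphisms of `ℂ`
  that fix a power of `ρ` is zero), **or** `d (ρ) < d (π i)`, **or** the weight of `ρ` is even and
  `d (ρ) < d (π i) + d (π i')` for all `i'` (`SmallDeviation`). Here `d (ρ)` is the mean of
  `(log |x| + log |ρ|) ^ 2` over all `p`-adic conjugates `x` of `ρ` (`deviation`), that is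
  `(log q) ^ 2` times the mean square deviation of the slopes of `ρ` from half of its weight, and
  `d (π i) = (log q) ^ 2 / 4` if `π i` is ordinary (second part of the theorem);
* homologically trivial self-correspondences of degree zero of `A × Z` are nilpotent, for instance
  the motive of `Z` is finite-dimensional in the sense of Kimura and O'Sullivan. This is known for
  all varieties dominated by products of curves, and for their products with `A`.

The Kunneth formula `⨁ CH^i(A)_ℚ ⊗ CH^(n-i)(Z)_ℚ = CH^n(A × Z)_ℚ` holds, and **the pairing
`CH^n(A × Z)_ℝ × CH^(d-n)(A × Z)_ℝ → ℝ`, `d = dim A + dim Z`, of the question is perfect if and
only if the pairings `CH^m(Z)_ℝ × CH^(dim Z - m)(Z)_ℝ → ℝ` with `n - dim A ≤ m ≤ n` are perfect.**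
Rational and numerical (homological) equivalence coincide for cycles of codimension `c` on `A × Z`
if and only if they coincide for cycles of codimension `c - i` on `Z` for all `0 ≤ i ≤ dim A`. If
`Z` is a point, a curve or a surface, all pairings for `A × Z` are perfect, by the theorems quoted
in the question. The Frobenius endomorphism acts on `CH^i(A × Z)_ℚ` as multiplication by `Q ^ i`.

The framework (`TheoryData`, `IsChow`, `IsWeil`) is the one of helper492: the Chow groups `C` with
their pull-backs, push-forwards and products, and a Weil cohomology theory `H` with coefficients in
an algebraically closed field `F`, on a class `𝒱` of smooth proper varieties over `k`.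

Examples, for `s = 1` and ordinary `π i`. All `ρ` of even weight `2 v` with slopes between
`v - 1 / √2` and `v + 1 / √2` are good, and all `ρ` of any weight `w` with slopes between
`(w - 1) / 2` and `(w + 1) / 2`. In general all `ρ` of weight `2 v` are good whose degree over `ℚ`
is more than `2 ∑ (s - v) ^ 2`, the sum over the slopes `s` of all conjugates; for the second
cohomology of a surface of geometric genus `g` the Newton polygon lies above the Hodge polygon, and
it is sufficient that `ρ` is `q` times a root of unity or has degree more than `4 g` (more than
four for K3 surfaces). The conditions of this kind do not exclude any relation between `A` and the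
other factor: `ℚ(ρ)` may be contained in a field `F i`, or in its Galois closure.

Relation to other results. `AllCMTypesPerfect` (this folder) is the theorem for the abelian
varieties of almost all slope types of all CM fields, if all eigenvalues of Frobenius on the other
factor are unrelated to the fields. New here are the second and the third alternative, and the
theorem is about each single abelian variety with absolutely irreducible fields. The criterion for
slopes is the one of `SmallSlopeDeviation` (MP_0f183b_ag, helper70), where it is applied to the
Tate conjecture.

The proof. A multiplicative relation between `ρ`, a power of `q` and a product of conjugates of the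
`π i` gives, for each automorphism `σ` of a Galois closure, the linear relation
`s (σ ρ) - w / 2 = ∑ x, n x (s (σ x) - 1 / 2)` between slopes, up to signs, where the sum is over
one embedding `x` of each conjugate pair and `n x` is the difference of the multiplicities of `x`
and of its conjugate. The second moments of the slopes are an invariant form on the odd functions;
it is real valued, but all its compositions with rational functionals are rational invariant forms,
and so the slopes at different pairs are uncorrelated, by Schur's lemma. Hence
`d (ρ) = ∑ x, (n x) ^ 2 d (π x)`. If the weight of `ρ` is even, so is the sum of all
multiplicities, and a single `n x = ± 1` is impossible. So all `n x` are zero (`noRel_good`, by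
helper70). It follows that the generalized eigenvectors of Frobenius in the cohomology of `A × Z`
for the eigenvalues `Q ^ i` are sums of products of classes of products `D j` of divisors on `A`
and of classes on `Z`. Let `p` be the projector given by the `D j` and dual classes, and `P` a
polynomial killing all the other eigenvalues and with `P (Q ^ i) = 1`. The correspondence
`(1 - p) P (F)` is homologically trivial, hence nilpotent; as it acts on `T^i(A × Z)` as the
idempotent `1 - p`, this idempotent is zero. (The idea to play the eigenvalues of Frobenius off
against nilpotence is due to Soulé, Geisser and Kahn.)
-/

set_option autoImplicit false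

namespace Pool.Agent.Results.MP_4960c7_ag.SmallSlopeDeviation

open NumberField Module Polynomial Pool.Agent.Y137.MV Pool.Agent.Y137.SL Pool.Agent.Y1.CT
  Pool.Agent.Q70.SQ Pool.Agent.Q64.P

/-- **Rational and numerical equivalence coincide on `A × Z` in codimension `c` if and only if they
coincide on `Z` in the codimensions `c - i`, `0 ≤ i ≤ dim A`, and the intersection pairings are
perfect for `A × Z` if and only if they are for `Z`, for the abelian varieties `A` over finite
fields with absolutely irreducible, unrelated CM fields and no supersingular part, and all smooth
projective varieties `Z` each of whose Frobenius eigenvalues is unrelated to these fields or has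
small mean square slope deviation.** -/
theorem result :
    (∀ (p : ℕ) [Fact p.Prime] (a : ℕ) (I : Type) [Fintype I] (F : I → Type)
      [∀ i, Field (F i)] [∀ i, NumberField (F i)] [∀ i, IsCMField (F i)] (π : ∀ i, F i)
      (f : I → ℤ[X]), 0 < a →
      (∀ i, π i * IsCMField.complexConj (F i) (π i) = (p : F i) ^ a) →
      (∀ i, OddAbsolutelyIrreducible (F i)) →
      (∀ i i', i ≠ i' → Pool.Agent.Y137.MV.Unrelated (F i) (F i')) →
      (∀ i, HasOtherSlope p a (π i)) → (∀ i, IsPolyOf (π i) (f i)) →
      PerfectReduces (GoodRoots p a π) (p ^ a) f ∧ RatNumReduces (GoodRoots p a π) (p ^ a) f) ∧
    (∀ (p : ℕ) [Fact p.Prime] (a : ℕ) (F : Type) [Field F] [NumberField F] (π : F),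
      IsOrdinary p a π → weilDeviation p a π = (a * Real.log p) ^ 2 / 4) := by
  refine ⟨?_, ?_⟩
  · intro p _ a I _ F _ _ _ π f ha hw habs hun hns hf
    have hq := Nat.one_lt_pow ha.ne' (Fact.out : p.Prime).one_lt
    have hR := noRel_good ha hw habs hun hns f hf
    exact ⟨perfectReduces hq hR, ratNumReduces hq hR⟩
  · intro p _ a F _ _ π h
    exact weilDeviation_ordinary h

end Pool.Agent.Results.MP_4960c7_ag.SmallSlopeDeviation
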